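import Pool.Agent.Helper451.Fan
import Pool.Agent.Helper451.HyperDefs

set_option autoImplicit false

namespace Pool.Agent.Results.MP_85483e_gt.ConeRetraction

open TopologicalSpace Filter Topology Pool.Agent.Helper451.HyperDefs Pool.Agent.Helper451.Fan

lemma isolated {Z : Type} [MetricSpace Z] {z : Z} (h1 : ¬ AccPt z (𝓟 (Set.univ : Set Z))) : IsOpen ({z} : Set Z) := by
  rw [accPt_principal_iff_nhdsWithin] at h1
  have h2 : (Set.univ : Set Z) \ {z} = {z}ᶜ := by
    ext x; simp
  rw [h2, Filter.not_neBot] at h1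
  exact isOpen_singleton_iff_punctured_nhds z |>.mpr h1

lemma countable_of_one_limit {Z : Type} [MetricSpace Z] [CompactSpace Z] (z0 : Z)
    (h : ∀ z : Z, z ≠ z0 → ¬ AccPt z (𝓟 (Set.univ : Set Z))) : Countable Z := by
  obtain ⟨s, hs, hd⟩ := exists_countable_dense Z
  have : (Set.univ : Set Z) ⊆ insert z0 s := by
    intro z _
    by_cases hz : z = z0
    · exact Or.inl hz
    · right
      have h3 := hd.inter_open_nonempty {z} (isolated (h z hz)) ⟨z, rfl⟩
      obtain ⟨w, hw, hws⟩ := h3
      rw [Set.mem_singleton_iff] at hw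
      rw [← hw]; exact hws
  exact Set.countable_univ_iff.mp ((hs.insert z0).mono this)

lemma exists_coord {Z : Type} [MetricSpace Z] [CompactSpace Z] (z0 : Z)
    (h : ∀ z : Z, z ≠ z0 → ¬ AccPt z (𝓟 (Set.univ : Set Z))) :
    ∃ ζ : Z → ℝ, Continuous ζ ∧ Function.Injective ζ := by
  classical
  have := countable_of_one_limit z0 h
  obtain ⟨n, hn⟩ := exists_injective_nat Z
  refine ⟨fun z => if z = z0 then 0 else 1 / ((n z : ℝ) + 1), ?_, ?_⟩
  · rw [continuous_iff_continuousAt]
    intro z
    by_cases hz : z = z0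
    · subst hz
      rw [ContinuousAt, Metric.tendsto_nhds]
      intro ε hε
      obtain ⟨N, hN⟩ := exists_nat_one_div_lt hε
      have hfin : ({w : Z | n w ≤ N} \ {z}).Finite := by
        apply Set.Finite.subset _ Set.sdiff_subset
        exact (Set.finite_Iic N).preimage hn.injOn
      have hmem : ({w : Z | n w ≤ N} \ {z})ᶜ ∈ 𝓝 z := hfin.isClosed.isOpen_compl.mem_nhds (by simp)
      filter_upwards [hmem] with w hw
      by_cases hwz : w = z
      · rw [hwz]; simpa using hε
      · have h1 : N < n w := by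
          by_contra hcon
          exact hw ⟨not_lt.mp hcon, hwz⟩
        simp only [hwz, if_false, if_true, Real.dist_eq, sub_zero]
        have h2 : (0:ℝ) < 1 / ((n w : ℝ) + 1) := by positivity
        rw [abs_of_pos h2]
        refine lt_trans ?_ hN
        apply one_div_lt_one_div_of_lt (by positivity)
        have : (N : ℝ) < n w := by exact_mod_cast h1
        linarith
    · have h1 := isolated (h z hz)
      have h2 : 𝓝 z = pure z := (isOpen_singleton_iff_nhds_eq_pure z).mp h1
      rw [ContinuousAt, h2]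
      exact tendsto_pure_nhds _ z
  · intro a b hab
    simp only at hab
    by_cases ha : a = z0
    · by_cases hb : b = z0
      · rw [ha, hb]
      · rw [if_pos ha, if_neg hb] at hab
        have : (0:ℝ) < 1 / ((n b : ℝ) + 1) := by positivity
        linarith
    · by_cases hb : b = z0
      · rw [if_neg ha, if_pos hb] at hab
        have : (0:ℝ) < 1 / ((n a : ℝ) + 1) := by positivity
        linarith
      · rw [if_neg ha, if_neg hb] at hab
        rw [one_div, one_div, inv_inj] at hab
        have h3 : (n a : ℝ) = n b := by linarith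
        exact hn (by exact_mod_cast h3)

/-- the cone is the planar fan -/
lemma cone_homeo {Z : Type} [TopologicalSpace Z] [CompactSpace Z] (ζ : Z → ℝ) (hζ : Continuous ζ)
    (hi : Function.Injective ζ) : Nonempty (Cone Z ≃ₜ Fan (Set.range ζ)) := by
  let F0 : Z × unitInterval → Fan (Set.range ζ) := fun p =>
    ⟨pt (1 - (p.2 : ℝ)) (ζ p.1), pt_mem (by linarith [p.2.2.2]) (by linarith [p.2.2.1]) (⟨ζ p.1, p.1, rfl⟩ : Set.range ζ)⟩
  have hF0 : Continuous F0 := by
    show Continuous (fun p : Z × unitInterval => (⟨pt (1 - (p.2 : ℝ)) (ζ p.1), pt_mem (by linarith [p.2.2.2]) (by linarith [p.2.2.1]) (⟨ζ p.1, p.1, rfl⟩ : Set.range ζ)⟩ : Fan (Set.range ζ)))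
    unfold pt
    fun_prop
  have hresp : ∀ p q : Z × unitInterval, (coneSetoid Z).r p q → F0 p = F0 q := by
    rintro p q (h | ⟨h1, h2⟩)
    · rw [h]
    · apply Subtype.ext
      show pt (1 - (p.2 : ℝ)) (ζ p.1) = pt (1 - (q.2 : ℝ)) (ζ q.1)
      unfold pt
      rw [h1, h2]
      simp
  let F : Cone Z → Fan (Set.range ζ) := Quotient.lift F0 hresp
  have hF : Continuous F := hF0.quotient_lift hresp
  have hinj : Function.Injective F := by
    intro a b
    refine Quotient.inductionOn₂ a b ?_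
    intro p q hpq
    have h1 : pt (1 - (p.2 : ℝ)) (ζ p.1) = pt (1 - (q.2 : ℝ)) (ζ q.1) := congrArg Subtype.val hpq
    unfold pt at h1
    have h2 : (1 - (p.2 : ℝ)) = 1 - (q.2 : ℝ) := congrArg Prod.fst h1
    have h3 : (1 - (p.2 : ℝ)) * ζ p.1 = (1 - (q.2 : ℝ)) * ζ q.1 := congrArg Prod.snd h1
    have h4 : p.2 = q.2 := Subtype.ext (by linarith)
    apply Quotient.sound
    by_cases hp : p.2 = 1
    · exact Or.inr ⟨hp, h4 ▸ hp⟩
    · left
      rw [← h2] at h3
      have h5 : (1 - (p.2 : ℝ)) ≠ 0 := by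
        intro h0
        apply hp
        apply Subtype.ext
        show (p.2 : ℝ) = 1
        linarith
      exact Prod.ext (hi (mul_left_cancel₀ h5 h3)) h4
  have hsurj : Function.Surjective F := by
    intro x
    obtain ⟨⟨h1, h2⟩, z, ⟨w, hw⟩, hz⟩ := mem_fan.mp x.2
    refine ⟨Quotient.mk _ (w, ⟨1 - x.1.1, by linarith, by linarith⟩), ?_⟩
    apply Subtype.ext
    show pt (1 - (1 - x.1.1)) (ζ w) = x.1
    unfold pt
    apply Prod.ext
    · show 1 - (1 - x.1.1) = x.1.1; ring
    · show (1 - (1 - x.1.1)) * ζ w = x.1.2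
      rw [hz, hw]; ring
  exact ⟨Continuous.homeoOfEquivCompactToT2 (f := Equiv.ofBijective F ⟨hinj, hsurj⟩) hF⟩

/-- Question 2 of the problem. -/
theorem result (Z : Type) [MetricSpace Z] [CompactSpace Z]
    (hZ : ∃! z : Z, AccPt z (Filter.principal (Set.univ : Set Z)))
    (M : Type) [MetricSpace M] (e : M ≃ₜ Cone Z) : SubcontinuaRetract M := by
  obtain ⟨z0, hz0, huniq⟩ := hZ
  have h : ∀ z : Z, z ≠ z0 → ¬ AccPt z (𝓟 (Set.univ : Set Z)) := fun z hz ha => hz (huniq z ha)
  obtain ⟨ζ, hζ, hi⟩ := exists_coord z0 h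
  have hcount := countable_of_one_limit z0 h
  obtain ⟨g⟩ := cone_homeo ζ hζ hi
  have h1 : CompactSpace (Set.range ζ) := isCompact_iff_compactSpace.mp (isCompact_range hζ)
  have h2 : TotallyDisconnectedSpace (Set.range ζ) :=
    totallyDisconnectedSpace_subtype_iff.mpr (Set.countable_range ζ).isTotallyDisconnected
  have h3 : Nonempty (Set.range ζ) := ⟨⟨ζ z0, z0, rfl⟩⟩
  obtain ⟨r, hr, hc, hf⟩ := fan_retract (Z := Set.range ζ)
  exact subcontinuaRetract_homeo (e.trans g) (subcontinuaRetract_of r hr hc hf)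

end Pool.Agent.Results.MP_85483e_gt.ConeRetraction
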