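import Pool.Agent.Helper451.Fan
import Pool.Agent.Helper451.HyperDefs

set_option autoImplicit false

namespace Pool.Agent.Results.MP_85483e_gt.NotLocConnected

open TopologicalSpace Filter Topology Pool.Agent.Helper451.HyperDefs Pool.Agent.Helper451.Fan

/-- the leg parameters of the harmonic fan -/
def legs : Set ℝ := insert 0 (Set.range (fun n : ℕ => 1 / ((n : ℝ) + 1)))

lemma legs_compact : IsCompact legs :=
  tendsto_one_div_add_atTop_nhds_zero_nat.isCompact_insert_range

lemma legs_countable : legs.Countable := (Set.countable_range _).insert 0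

lemma zero_mem : (0:ℝ) ∈ legs := Or.inl rfl

lemma fan_connected : ConnectedSpace (Fan legs) := by
  have hne : Nonempty legs := ⟨⟨0, zero_mem⟩⟩
  have hpre : PreconnectedSpace (Fan legs) := by
    constructor
    apply isPreconnected_of_forall (vtx hne)
    intro y _
    refine ⟨Set.range (fun u : J => scl u y), Set.subset_univ _, ⟨0, ?_⟩, ⟨1, ?_⟩, ?_⟩
    · apply eq_vtx
      show (0:ℝ) * y.1.1 = 0
      rw [zero_mul]
    · apply Subtype.ext
      show ((1:ℝ) * y.1.1, (1:ℝ) * y.1.2) = y.1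
      rw [one_mul, one_mul]
    · apply isPreconnected_range
      unfold scl
      fun_prop
  exact { toPreconnectedSpace := hpre, toNonempty := ⟨vtx hne⟩ }

lemma fan_not_locconn : ¬ LocallyConnectedSpace (Fan legs) := by
  intro hloc
  let x0 : Fan legs := ⟨pt 1 0, pt_mem zero_le_one le_rfl ⟨0, zero_mem⟩⟩
  let x : ℕ → Fan legs := fun n => ⟨pt 1 (1 / ((n : ℝ) + 1)), pt_mem zero_le_one le_rfl ⟨1 / ((n : ℝ) + 1), Or.inr ⟨n, rfl⟩⟩⟩
  have hlim : Tendsto x atTop (𝓝 x0) := by
    rw [tendsto_subtype_rng]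
    have h1 : Tendsto (fun n : ℕ => ((1:ℝ), (1:ℝ) * (1 / ((n : ℝ) + 1)))) atTop (𝓝 ((1:ℝ), (1:ℝ) * 0)) := by
      apply Tendsto.prodMk_nhds tendsto_const_nhds
      exact tendsto_one_div_add_atTop_nhds_zero_nat.const_mul 1
    exact h1
  have hU : IsOpen {y : Fan legs | 1 / 2 < y.1.1} := by
    apply isOpen_lt continuous_const
    fun_prop
  have hx0 : x0 ∈ {y : Fan legs | 1 / 2 < y.1.1} := by
    show (1:ℝ) / 2 < 1
    norm_num
  have hC : IsOpen (connectedComponentIn {y : Fan legs | 1 / 2 < y.1.1} x0) := hU.connectedComponentIn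
  have hev := hlim.eventually (hC.mem_nhds (mem_connectedComponentIn hx0))
  obtain ⟨n, hn⟩ := hev.exists
  have hpre : IsPreconnected (connectedComponentIn {y : Fan legs | 1 / 2 < y.1.1} x0) := isPreconnected_connectedComponentIn
  have hpos : ∀ y ∈ connectedComponentIn {y : Fan legs | 1 / 2 < y.1.1} x0, y.1.1 ≠ 0 := by
    intro y hy
    have h1 : y ∈ {y : Fan legs | 1 / 2 < y.1.1} := connectedComponentIn_subset _ _ hy
    have h2 : (1:ℝ) / 2 < y.1.1 := h1
    intro h0
    rw [h0] at h2
    norm_num at h2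
  have himg : IsPreconnected ((fun y : Fan legs => y.1.2 / y.1.1) '' (connectedComponentIn {y : Fan legs | 1 / 2 < y.1.1} x0)) := by
    apply hpre.image
    apply ContinuousOn.div
    · fun_prop
    · fun_prop
    · exact hpos
  have hsub : ((fun y : Fan legs => y.1.2 / y.1.1) '' (connectedComponentIn {y : Fan legs | 1 / 2 < y.1.1} x0)) ⊆ legs := by
    rintro _ ⟨y, hy, rfl⟩
    obtain ⟨_, z1, hz1, hz1'⟩ := mem_fan.mp y.2
    show y.1.2 / y.1.1 ∈ legs
    rw [hz1', mul_div_cancel_left₀ _ (hpos y hy)]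
    exact hz1
  have hss := legs_countable.isTotallyDisconnected _ hsub himg
  have h2 := hss ⟨x0, mem_connectedComponentIn hx0, rfl⟩ ⟨x n, hn, rfl⟩
  have h3 : ((1:ℝ) * 0) / 1 = ((1:ℝ) * (1 / ((n : ℝ) + 1))) / 1 := h2
  have h4 : (0:ℝ) < 1 / ((n : ℝ) + 1) := by positivity
  rw [div_one, div_one, one_mul, one_mul] at h3
  linarith

/-- Question 1 of the problem. -/
theorem result : ∃ (M : Type) (_ : MetricSpace M) (_ : CompactSpace M) (_ : ConnectedSpace M),
    ¬ LocallyConnectedSpace M ∧ SubcontinuaRetract M := by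
  have h1 : CompactSpace legs := isCompact_iff_compactSpace.mp legs_compact
  have h2 : TotallyDisconnectedSpace legs :=
    totallyDisconnectedSpace_subtype_iff.mpr legs_countable.isTotallyDisconnected
  have h3 : Nonempty legs := ⟨⟨0, zero_mem⟩⟩
  obtain ⟨r, hr, hc, hf⟩ := fan_retract (Z := legs)
  exact ⟨Fan legs, inferInstance, isCompact_iff_compactSpace.mp (fan_compact legs_compact), fan_connected,
    fan_not_locconn, subcontinuaRetract_of r hr hc hf⟩

end Pool.Agent.Results.MP_85483e_gt.NotLocConnected
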